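import Pool.Agent.H89.SP.Defs

/-!
# Assembly: direct sums of patterns
(the lemmas on block diagonal matrices and full two by two matrices are from the library file
`R_seed8/S10028.lean`)
-/

set_option autoImplicit false

namespace Pool.Agent.H89.SP

open Polynomial Matrix

section

variable {F : Type} [Field F]

/-- The characteristic polynomial of a block diagonal matrix is the product over the blocks. -/
theorem charpoly_blockDiag {k m : ℕ} (M : Fin k → Matrix (Fin m) (Fin m) F) :
    (blockDiagonal M).charpoly = ∏ i, (M i).charpoly := by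
  have h : charmatrix (blockDiagonal M) = blockDiagonal (fun i => charmatrix (M i)) := by
    ext ⟨a, i⟩ ⟨b, j⟩
    by_cases hij : i = j
    · subst hij
      by_cases hab : a = b
      · subst hab
        simp [blockDiagonal_apply]
      · simp [blockDiagonal_apply, hab]
    · simp [blockDiagonal_apply, hij]
  rw [Matrix.charpoly, h, det_blockDiagonal]
  rfl

/-- Over an infinite field a full two by two matrix realizes every split quadratic. -/
theorem full_two [Infinite F] (a b : F) :
    ∃ M : Matrix (Fin 2) (Fin 2) F, (∀ i j, M i j ≠ 0) ∧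
      M.charpoly = (X - C a) * (X - C b) := by
  classical
  obtain ⟨t, ht⟩ := Infinite.exists_notMem_finset ({0, a + b, a, b} : Finset F)
  simp only [Finset.mem_insert, Finset.mem_singleton, not_or] at ht
  obtain ⟨h0, hab, ha, hb⟩ := ht
  refine ⟨!![t, 1; -((t - a) * (t - b)), a + b - t], ?_, ?_⟩
  · intro i j
    fin_cases i <;> fin_cases j
    · simpa using h0
    · simp
    · simp [sub_eq_zero, ha, hb]
    · simp only [Fin.mk_one, Fin.isValue, of_apply, cons_val', cons_val_one, cons_val_fin_one,
        ne_eq]
      intro h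
      exact hab (by linear_combination -h)
  · rw [charpoly_fin_two]
    simp [trace_fin_two, det_fin_two]
    ring

/-- Direct sums of full two by two blocks realize every split polynomial of even degree. -/
theorem pairs_block [Infinite F] (k : ℕ) (r : Fin 2 × Fin k → F) :
    ∃ M : Matrix (Fin 2 × Fin k) (Fin 2 × Fin k) F,
      (∀ i j, (M i j ≠ 0 ↔ i.2 = j.2)) ∧ M.charpoly = ∏ i, (X - C (r i)) := by
  choose M hM hM' using fun i : Fin k => full_two (r (0, i)) (r (1, i))
  refine ⟨blockDiagonal M, ?_, ?_⟩
  · rintro ⟨a, i⟩ ⟨b, j⟩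
    by_cases hij : i = j
    · subst hij
      simp [blockDiagonal_apply, hM]
    · simp [blockDiagonal_apply, hij]
  · rw [charpoly_blockDiag, Fintype.prod_prod_type, Fin.prod_univ_two, ← Finset.prod_mul_distrib]
    exact Finset.prod_congr rfl fun i _ => hM' i

/-- A monic split polynomial given by the multiset of its roots, enumerated by any type. -/
theorem enumerate {ι : Type} [Fintype ι] (s : Multiset F) (hs : Multiset.card s = Fintype.card ι) :
    ∃ r : ι → F, (s.map (fun a => X - C a)).prod = ∏ i, (X - C (r i)) := by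
  classical
  obtain ⟨l, rfl⟩ : ∃ l : List F, s = (l : Multiset F) := ⟨s.toList, by simp⟩
  have hl : l.length = Fintype.card ι := by simpa using hs
  let e : ι ≃ Fin l.length := (Fintype.equivFin ι).trans (finCongr hl.symm)
  refine ⟨fun i => l.get (e i), ?_⟩
  rw [Equiv.prod_comp e (fun j => X - C (l.get j))]
  rw [Multiset.map_coe, Multiset.prod_coe, ← List.prod_ofFn]
  congr 1
  apply List.ext_get
  · simp
  · intro n h1 h2
    simp

end

/-- the direct sum of `m` blocks `P` and `k` full blocks of order two -/
def PS {b : ℕ} (P : Matrix (Fin b) (Fin b) Bool) (m k : ℕ) :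
    (Fin b × Fin m) ⊕ (Fin 2 × Fin k) → (Fin b × Fin m) ⊕ (Fin 2 × Fin k) → Bool
  | Sum.inl x, Sum.inl y => decide (x.2 = y.2) && P x.1 y.1
  | Sum.inr x, Sum.inr y => decide (x.2 = y.2)
  | _, _ => false

/-- the number of nonzero entries -/
theorem card_PS {b : ℕ} (P : Matrix (Fin b) (Fin b) Bool) (m k : ℕ) :
    (Finset.univ.filter (fun xy : ((Fin b × Fin m) ⊕ (Fin 2 × Fin k)) ×
        ((Fin b × Fin m) ⊕ (Fin 2 × Fin k)) => PS P m k xy.1 xy.2 = true)).card =
      (Finset.univ.filter (fun xy : Fin b × Fin b => P xy.1 xy.2 = true)).card * m + 4 * k := by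
  classical
  rw [Finset.card_filter, Finset.card_filter, Fintype.sum_prod_type, Fintype.sum_prod_type]
  simp only [Fintype.sum_sum_type]
  have h1 : ∀ x : Fin b × Fin m, (∑ y : Fin b × Fin m,
      if PS P m k (Sum.inl x) (Sum.inl y) = true then 1 else 0) =
      ∑ j : Fin b, if P x.1 j = true then 1 else 0 := by
    intro x
    rw [Fintype.sum_prod_type]
    refine Finset.sum_congr rfl fun j _ => ?_
    simp only [PS, Bool.and_eq_true, decide_eq_true_eq]
    rw [Finset.sum_eq_single x.2]
    · simp
    · intro l _ hl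
      rw [if_neg]
      rintro ⟨h, -⟩
      exact hl h.symm
    · intro h; exact absurd (Finset.mem_univ _) h
  have h2 : ∀ x : Fin 2 × Fin k, (∑ y : Fin 2 × Fin k,
      if PS P m k (Sum.inr x) (Sum.inr y) = true then 1 else 0) = 2 := by
    intro x
    rw [Fintype.sum_prod_type]
    simp [PS]
  have h3 : ∀ (x : Fin b × Fin m) (y : Fin 2 × Fin k), PS P m k (Sum.inl x) (Sum.inr y) = false :=
    fun _ _ => rfl
  have h4 : ∀ (x : Fin 2 × Fin k) (y : Fin b × Fin m), PS P m k (Sum.inr x) (Sum.inl y) = false :=
    fun _ _ => rfl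
  simp only [h1, h2, h3, h4, Bool.false_eq_true, if_false, Finset.sum_const_zero, add_zero,
    zero_add]
  rw [Fintype.sum_prod_type, Fintype.sum_prod_type]
  simp only [Finset.sum_const, Finset.card_univ, Fintype.card_fin, smul_eq_mul]
  have h5 : ∀ x : Fin b, (∑ _y : Fin m, ∑ j : Fin b, if P x j = true then 1 else 0) =
      (∑ j : Fin b, if P x j = true then 1 else 0) * m := by
    intro x
    rw [Finset.sum_const, Finset.card_univ, Fintype.card_fin, smul_eq_mul, mul_comm]
  simp only [h5]
  rw [← Finset.sum_mul]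
  ring

/-- The index equivalence. -/
def idx (b m k : ℕ) : (Fin b × Fin m) ⊕ (Fin 2 × Fin k) ≃ Fin (b * m + 2 * k) :=
  (Equiv.sumCongr finProdFinEquiv finProdFinEquiv).trans finSumFinEquiv

theorem asm (hDEC : S_DEC) {F : Type} [Field F] [IsAlgClosed F] {b : ℕ}
    (P : Matrix (Fin b) (Fin b) Bool) (N k : ℕ) (hN : N ≤ b + 2 * k)
    (h : ∀ s : Multiset F, N ≤ Multiset.card s → ∃ t, t ≤ s ∧ Real P t) (m : ℕ) :
    (∀ p : F[X], p.Monic → p.natDegree = b * m + 2 * k →
      ∃ A : Matrix (Fin (b * m + 2 * k)) (Fin (b * m + 2 * k)) F,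
        (∀ i j, (A i j ≠ 0 ↔ PS P m k ((idx b m k).symm i) ((idx b m k).symm j) = true)) ∧
        A.charpoly = p) := by
  classical
  haveI : Infinite F := IsAlgClosed.instInfinite
  intro p hp hd
  have hsplit : p.Splits := IsAlgClosed.splits p
  have hcard : Multiset.card p.roots = b * m + 2 * k := by
    rw [← hd]; exact (splits_iff_card_roots.1 hsplit)
  have hprod : (p.roots.map (fun a => X - C a)).prod = p :=
    (hsplit.eq_prod_roots_of_monic hp).symm
  obtain ⟨f, r, hfr, hf, hr⟩ := hDEC F b (2 * k) N (Real P)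
    (fun s hs => by
      obtain ⟨t, ht, hR⟩ := h s hs
      exact ⟨t, ht, hR.1, hR⟩) hN m p.roots hcard
  choose M hM hMc using fun i => (hf i).2.2
  obtain ⟨r', hr'⟩ := enumerate (ι := Fin 2 × Fin k) r (by
    rw [hr, Fintype.card_prod, Fintype.card_fin, Fintype.card_fin])
  obtain ⟨N', hN', hNc⟩ := pairs_block k r'
  refine ⟨(fromBlocks (blockDiagonal M) 0 0 N').reindex (idx b m k) (idx b m k), ?_, ?_⟩
  · intro i j
    rw [reindex_apply, submatrix_apply]
    generalize (idx b m k).symm i = x
    generalize (idx b m k).symm j = y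
    rcases x with x | x <;> rcases y with y | y
    · rw [fromBlocks_apply₁₁, blockDiagonal_apply]
      by_cases hxy : x.2 = y.2
      · simpa [PS, hxy] using hM y.2 x.1 y.1
      · simp [PS, hxy]
    · simp [PS]
    · simp [PS]
    · simpa [PS] using hN' x y
  · rw [charpoly_reindex, charpoly_fromBlocks_zero₁₂, charpoly_blockDiag, hNc, ← hr']
    simp only [hMc]
    rw [← hprod, hfr, Multiset.map_add, Multiset.prod_add]
    congr 1
    have : ∀ T : Finset (Fin m), ∏ i ∈ T, ((f i).map (fun a => X - C a)).prod =
        ((∑ i ∈ T, f i).map (fun a => X - C a)).prod := by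
      intro T
      induction T using Finset.induction_on with
      | empty => simp
      | insert i T hi ih => rw [Finset.prod_insert hi, Finset.sum_insert hi, Multiset.map_add,
          Multiset.prod_add, ih]
    exact this Finset.univ

end Pool.Agent.H89.SP
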