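import Mathlib

/-!
# Sparse spectrally arbitrary patterns over algebraically closed fields (MP_8c7c0e_co)
Definitions and statements of the parts.

Over an algebraically closed field `F` (any characteristic) the block diagonal pattern with `m` blocks `P4`
(seven nonzero entries, order four; in characteristic 5: `m` blocks `P6` of order six with eleven nonzero
entries) and sufficiently many full blocks of order two is spectrally arbitrary. The characteristic polynomials of
the matrices with pattern `P4` are `(X^2 - u)(X - a)(X - b) - v`, those for `P6` are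
`(X^2 - u)(X - a)(X - b)(X - c)(X - d) - v`, with nonzero parameters.
-/

set_option autoImplicit false

namespace Pool.Agent.H89.SP

open Polynomial Matrix

/-- pattern of order four with seven nonzero entries -/
def P4 : Matrix (Fin 4) (Fin 4) Bool :=
  !![false, true, false, false;
     true, false, true, false;
     false, false, true, true;
     true, false, false, true]

/-- pattern of order six with eleven nonzero entries -/
def P6 : Matrix (Fin 6) (Fin 6) Bool :=
  !![false, true, false, false, false, false;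
     true, false, true, false, false, false;
     false, false, true, true, false, false;
     false, false, false, true, true, false;
     false, false, false, false, true, true;
     true, false, false, false, false, true]

/-- the multiset `t` of order `b` is the spectrum of a matrix with the pattern `P` -/
def Real {F : Type*} [Field F] {b : ℕ} (P : Matrix (Fin b) (Fin b) Bool) (t : Multiset F) : Prop :=
  Multiset.card t = b ∧ ∃ M : Matrix (Fin b) (Fin b) F, (∀ i j, (M i j ≠ 0 ↔ P i j = true)) ∧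
    M.charpoly = (t.map (fun a => X - C a)).prod

/-- the conditions on four eigenvalues -/
def Gen4 {F : Type*} [Field F] (x y z w : F) : Prop :=
  x + y ≠ 0 ∧ x + z ≠ 0 ∧ x + w ≠ 0 ∧ y + z ≠ 0 ∧ y + w ≠ 0 ∧ z + w ≠ 0 ∧
  x + y + z + w ≠ 0 ∧ x * y * z + x * y * w + x * z * w + y * z * w ≠ 0 ∧
  (x + y + z + w) * (x * y + x * z + x * w + y * z + y * w + z * w)
    - (x * y * z + x * y * w + x * z * w + y * z * w) ≠ 0

/-- STUB `SP-R4` (90 lines, adapt `four_block`, `four_distinct` of the library file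
`Pool/Graph/R_seed8/S10028.lean`, which is for characteristic 2). With `e1, .., e4` the elementary symmetric
functions: `u = - e3 / e1`, `a, b` the roots of `T^2 - e1 T + (e2 + u)`, `v = - e4 - a b u`. Then
`a + b = e1`, `a b - u = e2`, `(a + b) u = - e3`, `a b u + v = - e4`. `a b = (e1 e2 - e3)/e1 ≠ 0`, and
`e1^2 v = e1 e2 e3 - e3^2 - e1^2 e4 = (x+y)(x+z)(x+w)(y+z)(y+w)(z+w) ≠ 0`. -/
def S_R4 : Prop := ∀ (F : Type) [Field F] [IsAlgClosed F] (x y z w : F), Gen4 x y z w →
  Real P4 ({x, y, z, w} : Multiset F)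

/-- STUB `SP-E4` (60 lines). Four equal eigenvalues, characteristic not 5. For `α = 0`: `a = 1`, `b = -1`,
`u = -1`, `v = -1` in `four_block`. For `α ≠ 0` and characteristic not 2, 5: `a, b` the roots of
`T^2 - 4 α T + 5 α^2`, `u = - α^2`, `v = 4 α^4`. In characteristic 2: `four_equal` of the library file
`Pool/Graph/R_seed8/S10028.lean` (`a = b = s`, `u = s^2`, `v = (s - α)^4`, `s ∉ {0, α}`). -/
def S_E4 : Prop := ∀ (F : Type) [Field F] [IsAlgClosed F] (α : F), (5 : F) ≠ 0 →
  Real P4 (Multiset.replicate 4 α)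

/-- STUB `SP-C4` (80 lines, adapt `choose_four` of the library file). If no value occurs four times then
there are at least 12 different values, at least 11 nonzero ones: set `T`. Choose `x ∈ T`,
`y ∈ T \ {x, -x}`, `z ∈ T \ {x, -x, y, -y}` and `w ∈ T` different from `±x, ±y, ±z`, `-(x+y+z)`,
`-xyz/(xy+xz+yz)` and from the at most two roots of
`q = s1 T^2 + s1^2 T + (s1 s2 - s3)` (`s1, s2, s3` the elementary symmetric functions of `x, y, z`; `q ≠ 0`:
if `s1 = 0` the constant term is `-s3 = -xyz ≠ 0`): at most 10 values are forbidden. -/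
def S_C4 : Prop := ∀ (F : Type) [Field F] (s : Multiset F), 34 ≤ Multiset.card s →
  (∃ a, Multiset.replicate 4 a ≤ s) ∨
    (∃ x y z w : F, Gen4 x y z w ∧ ({x, y, z, w} : Multiset F) ≤ s)

/-- STUB `SP-R6` (90 lines). `v = - P(s)`, `R = P + v` vanishes at `s` and `-s` (`s ≠ -s`), so
`R = (X^2 - s^2) Q` with `Q` monic of degree 4, `Q = (X-a)(X-b)(X-c)(X-d)`, and
`- s^2 Q(0) = P(0) - P(s) ≠ 0`, so `a, b, c, d ≠ 0`. The matrix is
`!![0,1,0,0,0,0; s^2,0,1,0,0,0; 0,0,a,1,0,0; 0,0,0,b,1,0; 0,0,0,0,c,1; v,0,0,0,0,d]`; its characteristic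
polynomial is `(X^2 - s^2)(X-a)(X-b)(X-c)(X-d) - v` (expand along the first row, then first columns). -/
def S_R6 : Prop := ∀ (F : Type) [Field F] [IsAlgClosed F] (P : F[X]) (s : F), (2 : F) ≠ 0 →
  P.Monic → P.natDegree = 6 → s ≠ 0 → P.eval s = P.eval (-s) → P.eval s ≠ 0 → P.eval s ≠ P.eval 0 →
  ∃ M : Matrix (Fin 6) (Fin 6) F, (∀ i j, (M i j ≠ 0 ↔ P6 i j = true)) ∧ M.charpoly = P

/-- STUB `SP-E6` (50 lines). Six equal eigenvalues in characteristic 5. For `α = 0` take `s = 1`. For `α ≠ 0`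
take `s` with `s^4 = - α^4`: `(X - α)^6 = X^6 - α X^5 - α^5 X + α^6` (characteristic 5), so
`P(s) - P(-s) = -2 α s (s^4 + α^4) = 0`, `P(s) = s^6 + α^6 = α^4 (α^2 - s^2) ≠ 0` (if `s^2 = α^2` then
`s^4 = α^4 = - α^4`), `P(s) - P(0) = s^6 ≠ 0`. -/
def S_E6 : Prop := S_R6 → ∀ (F : Type) [Field F] [IsAlgClosed F] (α : F), (5 : F) = 0 →
  Real P6 (Multiset.replicate 6 α)

/-- the conditions on six eigenvalues, in terms of the coefficients of the characteristic polynomial -/
def Good6 {F : Type*} [Field F] (t : Multiset F) : Prop :=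
  Multiset.card t = 6 ∧ (∀ a ∈ t, -a ∉ t) ∧ ∃ c0 c1 c2 c3 c4 c5 : F,
    (t.map (fun a => X - C a)).prod =
      X ^ 6 + C c5 * X ^ 5 + C c4 * X ^ 4 + C c3 * X ^ 3 + C c2 * X ^ 2 + C c1 * X + C c0 ∧
    c5 ≠ 0 ∧ c1 ≠ 0 ∧ c5 * c4 ≠ c3 ∧ c3 ^ 2 ≠ 4 * c5 * c1

/-- STUB `SP-G6` (60 lines). Let `P` be the polynomial. `c5 T^2 + c3 T + c1` has two different roots `t1, t2`
(discriminant not zero), both nonzero. `t^2 + c4 t + c2` does not vanish at both: the difference of `c5` times
it and the quadratic is `(c5 c4 - c3) t + (c5 c2 - c1)` with at most one root. Take `t` with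
`t^2 + c4 t + c2 ≠ 0` and `s` with `s^2 = t`. `P(s) - P(-s) = 2 s (c5 t^2 + c3 t + c1) = 0`,
`P(s) - P(0) = t (t^2 + c4 t + c2) ≠ 0`, and `P(s) = P(-s) = 0` is impossible, as `s` and `-s` would be roots,
i.e. elements of the multiset. Use `S_R6`. -/
def S_G6 : Prop := S_R6 → ∀ (F : Type) [Field F] [IsAlgClosed F] (t : Multiset F), (2 : F) ≠ 0 →
  Good6 t → Real P6 t

/-- STUB `SP-C6` (150 lines). If no value occurs six times then there are at least 18 different values,
at least 17 nonzero ones: set `T`. Choose successively `x, y, z, w1, w2, w3 ∈ T`, each different from `± ` the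
previous ones (at most 10 forbidden values). `P3 = (X-x)(X-y)(X-z) = X^3 + g2 X^2 + g1 X + g0`, `g0 ≠ 0`.
`w1`: `P4 = P3 (X - w1)` has `f1 = g0 - w1 g1`; forbid `w1 = g0 / g1`. `w2`: `P5 = P4 (X - w2)` has
`d4 = f3 - w2`, `d3 = f2 - w2 f3`, `d2 = f1 - w2 f2`, `d1 = f0 - w2 f1`, `d0 = - w2 f0`, forbid the roots of
`d2^2 - 4 d4 d0 = (f2^2 - 4 f0) w2^2 + (4 f3 f0 - 2 f1 f2) w2 + f1^2`, not the zero polynomial as `f1 ≠ 0`.
`w3`: `c5 = d4 - w3`, `c4 = d3 - w3 d4`, `c3 = d2 - w3 d3`, `c2 = d1 - w3 d2`, `c1 = d0 - w3 d1`,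
`c0 = - w3 d0`; forbid `w3 = d4`, `w3 = d0 / d1`, the roots of
`c5 c4 - c3 = d4 w3^2 - d4^2 w3 + (d4 d3 - d2)` (not the zero polynomial: if `d4 = 0` then `d2^2 ≠ 0`) and
the roots of `c3^2 - 4 c5 c1` (a quadratic polynomial in `w3` with constant term `d2^2 - 4 d4 d0 ≠ 0`):
at most `10 + 1 + 1 + 2 + 2 = 16` forbidden values. -/
def S_C6 : Prop := ∀ (F : Type) [Field F] (s : Multiset F), 86 ≤ Multiset.card s →
  (∃ a, Multiset.replicate 6 a ≤ s) ∨ (∃ t, t ≤ s ∧ ((2 : F) ≠ 0 → Good6 t))

/-- STUB `SP-DEC` (30 lines). Greedy decomposition, induction on `m`. -/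
def S_DEC : Prop := ∀ (F : Type) (b c N : ℕ) (Q : Multiset F → Prop),
  (∀ s : Multiset F, N ≤ Multiset.card s → ∃ t, t ≤ s ∧ Multiset.card t = b ∧ Q t) → N ≤ b + c →
  ∀ (m : ℕ) (s : Multiset F), Multiset.card s = b * m + c →
    ∃ (f : Fin m → Multiset F) (r : Multiset F), s = ∑ i, f i + r ∧
      (∀ i, Multiset.card (f i) = b ∧ Q (f i)) ∧ Multiset.card r = c

end Pool.Agent.H89.SP
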