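import Pool.Agent.H89.SP.Asm
import Pool.Agent.H89.SP.T.R4
import Pool.Agent.H89.SP.T.E4
import Pool.Agent.H89.SP.T.C4
import Pool.Agent.H89.SP.T.R6
import Pool.Agent.H89.SP.T.E6
import Pool.Agent.H89.SP.T.G6
import Pool.Agent.H89.SP.T.C6
import Pool.Agent.H89.SP.T.DEC

/-!
# Sparse spectrally arbitrary patterns over algebraically closed fields
-/

set_option autoImplicit false

namespace Pool.Agent.H89.SP

open Polynomial Matrix

theorem card_P4 : (Finset.univ.filter (fun xy : Fin 4 × Fin 4 => P4 xy.1 xy.2 = true)).card = 7 := by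
  decide +kernel

theorem card_P6 : (Finset.univ.filter (fun xy : Fin 6 × Fin 6 => P6 xy.1 xy.2 = true)).card = 11 := by
  decide +kernel

theorem choose4 {F : Type} [Field F] [IsAlgClosed F] (h5 : (5 : F) ≠ 0) (s : Multiset F)
    (hs : 34 ≤ Multiset.card s) : ∃ t, t ≤ s ∧ Real P4 t := by
  rcases T.C4.main F s hs with ⟨a, ha⟩ | ⟨x, y, z, w, hg, hle⟩
  · exact ⟨_, ha, T.E4.main F a h5⟩
  · exact ⟨_, hle, T.R4.main F x y z w hg⟩

theorem choose6 {F : Type} [Field F] [IsAlgClosed F] (h5 : (5 : F) = 0) (s : Multiset F)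
    (hs : 86 ≤ Multiset.card s) : ∃ t, t ≤ s ∧ Real P6 t := by
  have h2 : (2 : F) ≠ 0 := by
    intro h
    have : (1 : F) = 5 - 2 * 2 := by norm_num
    rw [h5, h] at this
    simp at this
  rcases T.C6.main F s hs with ⟨a, ha⟩ | ⟨t, hle, hg⟩
  · exact ⟨_, ha, T.E6.main T.R6.main F a h5⟩
  · exact ⟨_, hle, T.G6.main T.R6.main F t h2 (hg h2)⟩

/-- transport to `Fin n` -/
theorem transport {F : Type} [Field F] [IsAlgClosed F] {b : ℕ}
    (P : Matrix (Fin b) (Fin b) Bool) (N k : ℕ) (hN : N ≤ b + 2 * k)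
    (h : ∀ s : Multiset F, N ≤ Multiset.card s → ∃ t, t ≤ s ∧ Real P t) (m : ℕ) :
    ∃ Q : Matrix (Fin (b * m + 2 * k)) (Fin (b * m + 2 * k)) Bool,
      (∀ p : F[X], p.Monic → p.natDegree = b * m + 2 * k →
        ∃ A : Matrix (Fin (b * m + 2 * k)) (Fin (b * m + 2 * k)) F,
          (∀ i j, (A i j ≠ 0 ↔ Q i j = true)) ∧ A.charpoly = p) ∧
      (Finset.univ.filter (fun xy : Fin (b * m + 2 * k) × Fin (b * m + 2 * k) =>
        Q xy.1 xy.2 = true)).card =
      (Finset.univ.filter (fun xy : Fin b × Fin b => P xy.1 xy.2 = true)).card * m + 4 * k := by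
  refine ⟨fun i j => PS P m k ((idx b m k).symm i) ((idx b m k).symm j),
    asm T.DEC.main P N k hN h m, ?_⟩
  rw [← card_PS P m k]
  refine Finset.card_bij (fun xy _ => ((idx b m k).symm xy.1, (idx b m k).symm xy.2)) ?_ ?_ ?_
  · intro xy hxy
    simpa using hxy
  · rintro ⟨x, y⟩ _ ⟨x', y'⟩ _ he
    have h1 := congrArg Prod.fst he
    have h2 := congrArg Prod.snd he
    exact Prod.ext ((idx b m k).symm.injective h1) ((idx b m k).symm.injective h2)
  · rintro ⟨x, y⟩ hxy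
    refine ⟨(idx b m k x, idx b m k y), ?_, ?_⟩
    · simpa using hxy
    · simp

theorem final4 {F : Type} [Field F] [IsAlgClosed F] (h5 : (5 : F) ≠ 0) (m : ℕ) :
    ∃ Q : Matrix (Fin (4 * m + 30)) (Fin (4 * m + 30)) Bool,
      (∀ p : F[X], p.Monic → p.natDegree = 4 * m + 30 →
        ∃ A : Matrix (Fin (4 * m + 30)) (Fin (4 * m + 30)) F,
          (∀ i j, (A i j ≠ 0 ↔ Q i j = true)) ∧ A.charpoly = p) ∧
      (Finset.univ.filter (fun xy : Fin (4 * m + 30) × Fin (4 * m + 30) =>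
        Q xy.1 xy.2 = true)).card = 7 * m + 60 := by
  have h := transport (F := F) P4 34 15 (by norm_num) (choose4 h5) m
  rw [card_P4] at h
  exact h

theorem final6 {F : Type} [Field F] [IsAlgClosed F] (h5 : (5 : F) = 0) (m : ℕ) :
    ∃ Q : Matrix (Fin (6 * m + 80)) (Fin (6 * m + 80)) Bool,
      (∀ p : F[X], p.Monic → p.natDegree = 6 * m + 80 →
        ∃ A : Matrix (Fin (6 * m + 80)) (Fin (6 * m + 80)) F,
          (∀ i j, (A i j ≠ 0 ↔ Q i j = true)) ∧ A.charpoly = p) ∧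
      (Finset.univ.filter (fun xy : Fin (6 * m + 80) × Fin (6 * m + 80) =>
        Q xy.1 xy.2 = true)).card = 11 * m + 160 := by
  have h := transport (F := F) P6 86 40 (by norm_num) (choose6 h5) m
  rw [card_P6] at h
  exact h

end Pool.Agent.H89.SP
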