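import Pool.Agent.H89.SP.LBF
import Pool.Agent.H89.SP.L.DECO

/-!
# Fields with an irreducible polynomial of degree `n`
-/

set_option autoImplicit false

namespace Pool.Agent.H89.SP.IRR

open Polynomial Matrix Pool.Agent.H89.SP.LB Pool.Agent.H89.SP.LR Pool.Agent.H89.SP.LBF

/-- Over an infinite field with an irreducible polynomial of degree `n` the bound is `2 n - 1`. -/
theorem lowerIrr (hTREE : S_TREE) (F : Type) [Field F] [Infinite F] {ι : Type}
    [Fintype ι] [DecidableEq ι] (Q : ι → ι → Bool)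
    (hsa : ∀ p : F[X], p.Monic → p.natDegree = Fintype.card ι →
      ∃ A : Matrix ι ι F, Exact Q A ∧ A.charpoly = p) (p0 : F[X]) (hirr : Irreducible p0)
    (hdeg : p0.natDegree = Fintype.card ι) : 2 * Fintype.card ι ≤ arcs Q + 1 := by
  classical
  obtain ⟨k, b, R, hb, hR, hsum, harcs, hfac⟩ := L.DECO.main ι Q
  have hmon : (p0 * C p0.leadingCoeff⁻¹).Monic := monic_mul_leadingCoeff_inv hirr.ne_zero
  have hirr' : Irreducible (p0 * C p0.leadingCoeff⁻¹) := irreducible_mul_leadingCoeff_inv.2 hirr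
  have hdeg' : (p0 * C p0.leadingCoeff⁻¹).natDegree = Fintype.card ι := by
    rw [natDegree_mul_leadingCoeff_inv _ hirr.ne_zero, hdeg]
  obtain ⟨A, hA, hAp⟩ := hsa _ hmon hdeg'
  obtain ⟨B, hB, hp⟩ := hfac F A hA
  have hpos : 0 < Fintype.card ι := by
    rw [← hdeg]; exact hirr.natDegree_pos
  obtain ⟨l0⟩ : Nonempty (Fin k) := by
    by_contra h
    rw [not_nonempty_iff] at h
    rw [Fintype.sum_empty] at hsum
    omega
  rw [← Finset.mul_prod_erase _ _ (Finset.mem_univ l0)] at hp
  have hu : IsUnit (∏ l ∈ Finset.univ.erase l0, (B l).charpoly) := by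
    rcases (hAp ▸ hirr').isUnit_or_isUnit hp with h | h
    · exfalso
      have h1 := natDegree_eq_zero_of_isUnit h
      rw [(B l0).charpoly_natDegree_eq_dim, Fintype.card_fin] at h1
      have := hb l0
      omega
    · exact h
  have h0 : ∑ l ∈ Finset.univ.erase l0, b l = 0 := by
    have h1 := natDegree_eq_zero_of_isUnit hu
    rw [natDegree_prod_of_monic _ _ (fun l _ => (B l).charpoly_monic)] at h1
    rw [← h1]
    exact Finset.sum_congr rfl fun l _ => by
      rw [(B l).charpoly_natDegree_eq_dim, Fintype.card_fin]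
  have hb0 : b l0 = Fintype.card ι := by
    rw [← hsum, ← Finset.add_sum_erase _ _ (Finset.mem_univ l0), h0, add_zero]
  have ha : arcs (R l0) ≤ arcs Q :=
    (Finset.single_le_sum (fun l _ => Nat.zero_le (arcs (R l))) (Finset.mem_univ l0)).trans harcs
  have h2 : 2 * b l0 ≤ arcs (R l0) + 1 := by
    by_contra h
    refine no_rel F Q (R l0) hsa ?_ (L.ALG.main hTREE F (Fin (b l0)) (R l0) (hR l0)
      (by simpa using hb l0) (by simp; omega))
    intro A hA
    obtain ⟨B, hB, hp⟩ := hfac F A hA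
    exact ⟨B l0, hB l0, hp ▸ Finset.dvd_prod_of_mem _ (Finset.mem_univ l0)⟩
  omega

end Pool.Agent.H89.SP.IRR
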