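import Mathlib

/-!
# A lower bound for spectrally arbitrary patterns over algebraically closed fields (MP_8c7c0e_co)
Statements of the parts. A spectrally arbitrary pattern of order `n` has at least `7n/4` nonzero entries.
-/

set_option autoImplicit false

namespace Pool.Agent.H89.SP.LB

open Polynomial Matrix

/-- `B` has exactly the nonzero entries of the pattern `Q` -/
def Exact {F ι : Type} [Field F] (Q : ι → ι → Bool) (B : Matrix ι ι F) : Prop :=
  ∀ i j, B i j ≠ 0 ↔ Q i j = true

/-- there is a directed path from `i` to `j` -/
def Reach {ι : Type} (Q : ι → ι → Bool) (i j : ι) : Prop :=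
  Relation.ReflTransGen (fun a b => Q a b = true) i j

/-- the pattern is irreducible (strongly connected) -/
def Strong {ι : Type} (Q : ι → ι → Bool) : Prop := ∀ i j, Reach Q i j

/-- number of nonzero entries -/
def arcs {ι : Type} [Fintype ι] [DecidableEq ι] (Q : ι → ι → Bool) : ℕ :=
  (Finset.univ.filter (fun ij : ι × ι => Q ij.1 ij.2 = true)).card

/-- the strong component of `c` -/
def Comp {ι : Type} (Q : ι → ι → Bool) (c : ι) : Type := {i : ι // Reach Q c i ∧ Reach Q i c}

/-- the pattern on the strong component -/
def compQ {ι : Type} (Q : ι → ι → Bool) (c : ι) : Comp Q c → Comp Q c → Bool :=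
  fun i j => Q i.1 j.1

noncomputable instance {ι : Type} [Fintype ι] (Q : ι → ι → Bool) (c : ι) : Fintype (Comp Q c) := by
  classical
  exact inferInstanceAs (Fintype {i : ι // Reach Q c i ∧ Reach Q i c})

noncomputable instance {ι : Type} (Q : ι → ι → Bool) (c : ι) : DecidableEq (Comp Q c) :=
  Classical.decEq _

/-- STUB `LB-CON` (30 lines). The strong component is strongly connected: a path from `c` to `i` and back
only meets vertices of the component. -/
def S_CON : Prop := ∀ (ι : Type) (Q : ι → ι → Bool) (c : ι), Strong (compQ Q c)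

/-- STUB `LB-DIV` (60 lines). Let `U` be the set of the vertices which are reachable from `c`, `C` the component,
`W = U \ C`. Rows of `U` have zeros outside `U`; rows of `W` have zeros outside `W` (an arc from `w ∈ W` to
`C` would give `w ∈ C`). So by `Matrix.twoBlockTriangular_det` (applied to the characteristic
matrix) `charpoly A = charpoly A_U * charpoly A_{U^c}` and `charpoly A_U = charpoly A_C * charpoly A_W`. -/
def S_DIV : Prop := ∀ (F ι : Type) [Field F] [Fintype ι] [DecidableEq ι] (Q : ι → ι → Bool) (c : ι)
  (A : Matrix ι ι F), Exact Q A →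
    (A.submatrix (fun i : Comp Q c => i.1) (fun i : Comp Q c => i.1)).charpoly ∣ A.charpoly

/-- STUB `LB-SUM` (60 lines). Summation over the strong components: `card ι = ∑ card C`,
`arcs Q ≥ ∑ arcs (C)`. So if `4 arcs Q < 7 card ι` then some component has this property. (Double counting:
for `i` let `w i = 1 / card (Comp i)`; or use the finset of the classes as finsets.) -/
def S_SUM : Prop := ∀ (ι : Type) [Fintype ι] [DecidableEq ι] (Q : ι → ι → Bool),
  4 * arcs Q < 7 * Fintype.card ι →
    ∃ c : ι, 4 * arcs (compQ Q c) < 7 * Fintype.card (Comp Q c)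

/-- STUB `LB-TREE` (100 lines). Scaling. Let `dist v` be the length of a shortest path from `v` to `r`; for
`v ≠ r` choose `par v` with `Q v (par v)` and `dist (par v) < dist v`. For `B` with exact pattern `Q` define
`d r = 1`, `d v = d (par v) / B v (par v)` (recursion on `dist`), all nonzero. `B' = D B D⁻¹`, i.e.
`B' i j = d i * B i j / d j`. -/
def S_TREE : Prop := ∀ (F ι : Type) [Field F] [Fintype ι] [DecidableEq ι] (Q : ι → ι → Bool) (r : ι),
  Strong Q → ∃ par : ι → ι, (∀ v, v ≠ r → Q v (par v) = true) ∧
    ∀ B : Matrix ι ι F, Exact Q B → ∃ B' : Matrix ι ι F, Exact Q B' ∧ B'.charpoly = B.charpoly ∧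
      ∀ v, v ≠ r → B' v (par v) = 1

/-- STUB `LB-ALG` (100 lines). If `arcs Q ≤ 2 b - 2` (`b = card ι ≥ 1`) then the coefficients of the
characteristic polynomials of the matrices with exact pattern `Q` satisfy a nontrivial algebraic equation.
By `S_TREE` it suffices to consider matrices with `B v (par v) = 1` for `v ≠ r`. Let `E` be the set of the
other arcs, `card E = arcs Q - (b - 1) ≤ b - 1` and let `M` be the matrix over `MvPolynomial E F` with the entry
`1` at `(v, par v)`, the variable at the arcs in `E` and `0` elsewhere. The `b` coefficients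
`M.charpoly.coeff k`, `k < b`, cannot be algebraically independent (transcendence degree of
`MvPolynomial E F` is `card E < b`), so `G ≠ 0` with `aeval (coefficients) G = 0` exists; evaluate
(`Matrix.charpoly_map`). -/
def S_ALG : Prop := S_TREE → ∀ (F ι : Type) [Field F] [Fintype ι] [DecidableEq ι]
  (Q : ι → ι → Bool), Strong Q → 1 ≤ Fintype.card ι → arcs Q + 2 ≤ 2 * Fintype.card ι →
    ∃ G : MvPolynomial (Fin (Fintype.card ι)) F, G ≠ 0 ∧ ∀ B : Matrix ι ι F, Exact Q B →
      MvPolynomial.eval (fun k => B.charpoly.coeff k.val) G = 0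

/-- STUB `LB-SMALL` (100 lines). The remaining cases `b = 1, arcs = 1`; `b = 2, arcs = 3`; `b = 3, arcs = 5`
(these are the only cases with `2 b - 1 ≤ arcs` and `4 arcs < 7 b`). Either there is no loop, then the trace is 0:
the coefficient of `X^(b-1)` vanishes, `G` is this variable. If there is exactly one loop the trace is not `0`, so
the characteristic polynomial is not `X^b`. `b = 1`: one loop. `b = 2`, three arcs: one loop. `b = 3`, five
arcs: if there are exactly two loops, the three other arcs form a directed triangle (strong
connectivity), so there are no 2-cycles and the second coefficient (of `X`) is the product of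
the two loops, not zero. Three or more loops: at most two other arcs, not strongly connected. (For `b = 3`
one can transport to `Fin 3` and decide the combinatorial statement.) -/
def S_SMALL : Prop := ∀ (F ι : Type) [Field F] [Fintype ι] [DecidableEq ι]
  (Q : ι → ι → Bool), Strong Q → 2 * Fintype.card ι ≤ arcs Q + 1 → 4 * arcs Q < 7 * Fintype.card ι →
    (∃ G : MvPolynomial (Fin (Fintype.card ι)) F, G ≠ 0 ∧ ∀ B : Matrix ι ι F, Exact Q B →
      MvPolynomial.eval (fun k => B.charpoly.coeff k.val) G = 0) ∨
    (∀ B : Matrix ι ι F, Exact Q B → B.charpoly ≠ X ^ (Fintype.card ι))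

/-- STUB `LB-GEN` (90 lines). Generic polynomials. For a subset `S` of `Fin n` with `b` elements let
`H_S ∈ MvPolynomial (Fin n) F` be `G` evaluated at the coefficients of `∏_{i ∈ S} (X - C X_i)`. `H_S ≠ 0`: there is
a point `c` with `G(c) ≠ 0` (`F` is infinite), `X^b + ∑ c_i X^i` splits with roots `μ`, take `λ_i`, `i ∈ S`, to be
these roots. So there is `λ` with `H_S(λ) ≠ 0` for all `S` (product of nonzero polynomials, `F` infinite). Let
`p = ∏ (X - λ_i)`. A monic divisor of degree `b` is `∏_{i ∈ S} (X - λ_i)` for some `S`. -/
def S_GEN : Prop := ∀ (F : Type) [Field F] [IsAlgClosed F] (n b : ℕ) (G : MvPolynomial (Fin b) F),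
  G ≠ 0 → ∃ p : F[X], p.Monic ∧ p.natDegree = n ∧ ∀ q : F[X], q.Monic → q.natDegree = b → q ∣ p →
    MvPolynomial.eval (fun k => q.coeff k.val) G ≠ 0

end Pool.Agent.H89.SP.LB
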