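import Pool.Agent.H89.SP.LB

/-!
# Real spectrally arbitrary patterns: the sharp constant 11/6 (MP_786b32_co)
Statements of the parts. A real spectrally arbitrary pattern of order `n` has at least `(11 n - 1) / 6` nonzero
entries: for even `n` the polynomial `(X^2 + 1)^(n/2)` shows that all strong components have even order; components
of order 2 with 3 arcs and of order 4 with 7 arcs are impossible.
-/

set_option autoImplicit false

namespace Pool.Agent.H89.SP.LR

open Polynomial Matrix Pool.Agent.H89.SP.LB

/-- STUB `SPL-DECO` (130 lines). Decomposition in strong components. Strong induction on `card ι`. If `Q` is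
strong: one component (transport by `Fintype.equivFin`, `Matrix.charpoly_reindex`). Otherwise there are `i, j` with
`¬ Reach Q i j`; `U` the set of the vertices reachable from `i` contains `i`, not `j`, and there are no arcs from `U`
to the complement. So `charpoly A = charpoly A_U * charpoly A_(U^c)` (`Matrix.twoBlockTriangular_det` for the
characteristic matrix) and `arcs Q_U + arcs Q_(U^c) ≤ arcs Q`; apply the induction hypothesis
to both, and combine the families with `Fin.append` / `Fin.addCases` (or use lists of
sigma types: `∃ L : List (Σ b : ℕ, Fin b → Fin b → Bool)` first and convert; whatever is easiest). `card ι = 0`: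
`k = 0`. -/
def S_DECO : Prop := ∀ (ι : Type) [Fintype ι] [DecidableEq ι] (Q : ι → ι → Bool),
  ∃ (k : ℕ) (b : Fin k → ℕ) (R : ∀ l, Fin (b l) → Fin (b l) → Bool),
    (∀ l, 1 ≤ b l) ∧ (∀ l, Strong (R l)) ∧ ∑ l, b l = Fintype.card ι ∧ ∑ l, arcs (R l) ≤ arcs Q ∧
    ∀ (F : Type) [Field F] (A : Matrix ι ι F), Exact Q A →
      ∃ B : ∀ l, Matrix (Fin (b l)) (Fin (b l)) F, (∀ l, Exact (R l) (B l)) ∧
        A.charpoly = ∏ l, (B l).charpoly

/-- STUB `SPL-FOUR` (200 lines). Order 4, seven arcs, over the real field: the spectra `0000` and `1111` are not both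
realizable. Obstructions (`B` a realization):
(1) no loops: `tr = 0`, so not `(X-1)^4`; exactly one loop: `tr ≠ 0`, so not `X^4`;
(2) at least two loops and no 2-cycle: `tr (B^2) = ∑ (B i i)^2 ≠ 0`, not `X^4`;
(3) `det`: no permutation `σ` with `Q i (σ i)` for all `i`: `det = 0`, not `(X-1)^4`; exactly one: `det ≠ 0`,
not `X^4` (`Matrix.det_apply`, `Finset.sum_eq_single`);
(5) the pattern is, up to a permutation of the vertices, `P4`: arcs `1→2, 2→1, 2→3, 3→4, 4→1`, loops `3, 4`. Then
`charpoly = (X^2 - u)(X - a)(X - b) - v` (`u = B12 B21`, `a = B33`, `b = B44`, `v = B12 B23 B34 B41`); for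
`(X-1)^4`: `a + b = 4`, `u (a + b) = -4`, `a b - u = 6`, so `u = -1`, `a b = 5`, `(a - b)^2 = 16 - 20 < 0`.
Every strong `Q` on four vertices with 7 arcs satisfies one of (1), (2), (3), (5) (checked by computer: of the 2284
strong ones among the 11440 patterns 1756 have at most one loop, 240 others no 2-cycle, 264 others at most one
permutation, the remaining 24 are `P4` up to a permutation). So after transport to `Fin 4` this is a finite
check (`decide +kernel` in a suitable form, e.g. first fix a 2-cycle `0 ↔ 1` by a permutation, or enumerate the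
positions of the loops) or by hand: three loops: the other arcs form a 4-cycle, case (2). Two loops: five other
arcs with a 2-cycle `1 ↔ 2`; strong digraphs with 4 vertices and 5 arcs have exactly two
cycles: either `1↔2, 2→3→4→2` (then (3) for all positions of the loops) or `1↔2, 2→3→4→1` (loops `{3,4}`: (5); else
(3)). Nilpotent real `B`: `B.charpoly = X^4` gives `tr = 0`, `det = 0`, `B^4 = 0`, and `tr (B^2) = 0`
(`Matrix.isNilpotent_trace_of_isNilpotent`). The
characteristic polynomial of a 4 x 4 matrix can be expanded by `Matrix.det_succ_row_zero`. -/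
def S_FOUR : Prop := ∀ (ι : Type) [Fintype ι] [DecidableEq ι] (Q : ι → ι → Bool), Strong Q →
  Fintype.card ι = 4 → arcs Q = 7 →
    (∀ B : Matrix ι ι ℝ, Exact Q B → B.charpoly ≠ X ^ 4) ∨
    (∀ B : Matrix ι ι ℝ, Exact Q B → B.charpoly ≠ (X - 1) ^ 4)

/-- STUB `SPL-GENI` (with GEN, helper26): the version of `S_GEN` for all infinite fields. -/
def S_GENI : Prop := ∀ (F : Type) [Field F] [Infinite F] (n b : ℕ) (G : MvPolynomial (Fin b) F),
  G ≠ 0 → ∃ p : F[X], p.Monic ∧ p.natDegree = n ∧ ∀ q : F[X], q.Monic → q.natDegree = b → q ∣ p →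
    MvPolynomial.eval (fun k => q.coeff k.val) G ≠ 0

end Pool.Agent.H89.SP.LR
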