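import Pool.Agent.H89.SP.LB
import Pool.Agent.H89.SP.LR
import Pool.Agent.H89.SP.L.ALG
import Pool.Agent.H89.SP.L.CONN
import Pool.Agent.H89.SP.L.DIV
import Pool.Agent.H89.SP.L.GEN
import Pool.Agent.H89.SP.L.SUM

/-!
# Assembly of the lower bounds
-/

set_option autoImplicit false

namespace Pool.Agent.H89.SP.LBF

open Polynomial Matrix Pool.Agent.H89.SP.LB

/-- a divisor of `X ^ n` which is monic of degree `b` is `X ^ b` -/
theorem dvd_pow_eq {F : Type} [Field F] {n : ℕ} (a : F) {q : F[X]} (hq : q.Monic)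
    (h : q ∣ (X - C a) ^ n) : q = (X - C a) ^ q.natDegree := by
  obtain ⟨k, -, hk⟩ := (dvd_prime_pow (prime_X_sub_C a) n).1 h
  have h1 : q = (X - C a) ^ k := eq_of_monic_of_associated hq ((monic_X_sub_C a).pow k) hk
  have h2 : q.natDegree = k := by
    rw [h1, (monic_X_sub_C a).natDegree_pow, natDegree_X_sub_C, mul_one]
  rw [h2]; exact h1

/-- the relation of `S_ALG` is impossible for a component of a spectrally arbitrary pattern -/
theorem no_rel (F : Type) [Field F] [Infinite F] {ι κ : Type} [Fintype ι] [DecidableEq ι]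
    [Fintype κ] [DecidableEq κ] (Q : ι → ι → Bool) (R : κ → κ → Bool)
    (hsa : ∀ p : F[X], p.Monic → p.natDegree = Fintype.card ι →
      ∃ A : Matrix ι ι F, Exact Q A ∧ A.charpoly = p)
    (hcomp : ∀ A : Matrix ι ι F, Exact Q A → ∃ B : Matrix κ κ F, Exact R B ∧
      B.charpoly ∣ A.charpoly)
    (hG : ∃ G : MvPolynomial (Fin (Fintype.card κ)) F, G ≠ 0 ∧ ∀ B : Matrix κ κ F, Exact R B →
      MvPolynomial.eval (fun k => B.charpoly.coeff k.val) G = 0) : False := by
  obtain ⟨G, hG0, hG⟩ := hG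
  obtain ⟨p, hp, hpd, hpq⟩ := L.GEN.mainI F (Fintype.card ι) (Fintype.card κ) G hG0
  obtain ⟨A, hA, hAp⟩ := hsa p hp hpd
  obtain ⟨B, hB, hBd⟩ := hcomp A hA
  exact hpq B.charpoly B.charpoly_monic B.charpoly_natDegree_eq_dim (hAp ▸ hBd) (hG B hB)

/-- one spectrum is missed by a component -/
theorem no_pow (F : Type) [Field F] {ι κ : Type} [Fintype ι] [DecidableEq ι]
    [Fintype κ] [DecidableEq κ] (Q : ι → ι → Bool) (R : κ → κ → Bool)
    (hsa : ∀ p : F[X], p.Monic → p.natDegree = Fintype.card ι →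
      ∃ A : Matrix ι ι F, Exact Q A ∧ A.charpoly = p)
    (hcomp : ∀ A : Matrix ι ι F, Exact Q A → ∃ B : Matrix κ κ F, Exact R B ∧
      B.charpoly ∣ A.charpoly) (a : F)
    (h : ∀ B : Matrix κ κ F, Exact R B → B.charpoly ≠ (X - C a) ^ (Fintype.card κ)) : False := by
  obtain ⟨A, hA, hAp⟩ := hsa ((X - C a) ^ (Fintype.card ι)) ((monic_X_sub_C a).pow _)
    (by rw [(monic_X_sub_C a).natDegree_pow, natDegree_X_sub_C, mul_one])
  obtain ⟨B, hB, hBd⟩ := hcomp A hA
  apply h B hB
  have h1 := dvd_pow_eq a B.charpoly_monic (hAp ▸ hBd)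
  rw [B.charpoly_natDegree_eq_dim] at h1
  exact h1

/-- The lower bound `7 n / 4` over an infinite field. -/
theorem lower74 (hTREE : S_TREE) (hSMALL : S_SMALL) (F : Type) [Field F] [Infinite F] {ι : Type}
    [Fintype ι] [DecidableEq ι] (Q : ι → ι → Bool)
    (hsa : ∀ p : F[X], p.Monic → p.natDegree = Fintype.card ι →
      ∃ A : Matrix ι ι F, Exact Q A ∧ A.charpoly = p) : 7 * Fintype.card ι ≤ 4 * arcs Q := by
  by_contra hlt
  push Not at hlt
  obtain ⟨c, hc⟩ := L.SUM.main ι Q hlt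
  have hstrong := L.CON.main ι Q c
  have hcomp : ∀ A : Matrix ι ι F, Exact Q A → ∃ B : Matrix (Comp Q c) (Comp Q c) F,
      Exact (compQ Q c) B ∧ B.charpoly ∣ A.charpoly := fun A hA =>
    ⟨_, fun i j => hA i.1 j.1, L.DIV.main F ι Q c A hA⟩
  have hne : 1 ≤ Fintype.card (Comp Q c) := by
    by_contra h
    have h0 : Fintype.card (Comp Q c) = 0 := by omega
    rw [h0] at hc
    omega
  rcases Nat.lt_or_ge (2 * Fintype.card (Comp Q c)) (arcs (compQ Q c) + 2) with h | h
  · rcases hSMALL F (Comp Q c) (compQ Q c) hstrong (by omega) hc with h1 | h1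
    · exact no_rel F Q (compQ Q c) hsa hcomp h1
    · exact no_pow F Q (compQ Q c) hsa hcomp 0 (by simpa using h1)
  · exact no_rel F Q (compQ Q c) hsa hcomp
      (L.ALG.main hTREE F (Comp Q c) (compQ Q c) hstrong hne h)

/-- a monic real polynomial of odd degree has a root -/
theorem odd_root {q : ℝ[X]} (hq : q.Monic) (hodd : Odd q.natDegree) : ∃ x, q.IsRoot x := by
  induction' hn : q.natDegree using Nat.strong_induction_on with n ih generalizing q
  obtain ⟨f, hfm, hfi, g, hg⟩ := exists_monic_irreducible_factor q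
    (not_isUnit_of_natDegree_pos q hodd.pos)
  have hgm : g.Monic := hfm.of_mul_monic_left (hg ▸ hq)
  have hdeg : f.natDegree + g.natDegree = q.natDegree := by
    rw [← hfm.natDegree_mul hgm, ← hg]
  have hf2 := hfi.natDegree_le_two
  have hf0 := hfi.natDegree_pos
  rcases Nat.lt_or_ge f.natDegree 2 with h | h
  · have h1 : f.natDegree = 1 := by omega
    obtain ⟨x, hx⟩ := exists_root_of_degree_eq_one (by
      rw [degree_eq_natDegree hfi.ne_zero, h1]; rfl : f.degree = 1)
    exact ⟨x, by rw [hg]; exact root_mul_right_of_isRoot g hx⟩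
  · have h2 : f.natDegree = 2 := by omega
    have ho : Odd g.natDegree := by
      rw [← hdeg, h2] at hodd
      rcases hodd with ⟨m, hm⟩
      exact ⟨m - 1, by omega⟩
    obtain ⟨x, hx⟩ := ih g.natDegree (by omega) hgm ho rfl
    exact ⟨x, by rw [hg]; exact root_mul_left_of_isRoot f hx⟩

end Pool.Agent.H89.SP.LBF
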