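import Pool.Agent.H89.SP.LB

/-!
# Direct sums of patterns, one block at a time
-/

set_option autoImplicit false

namespace Pool.Agent.H89.SP.UP

open Polynomial Matrix Pool.Agent.H89.SP.LB

/-- spectrally arbitrary -/
def SA (F : Type) [Field F] {ι : Type} [Fintype ι] [DecidableEq ι] (Q : ι → ι → Bool) : Prop :=
  ∀ p : F[X], p.Monic → p.natDegree = Fintype.card ι → ∃ A : Matrix ι ι F, Exact Q A ∧ A.charpoly = p

/-- there is a spectrally arbitrary pattern of order `n` with `a` nonzero entries -/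
def U (F : Type) [Field F] (n a : ℕ) : Prop := ∃ Q : Fin n → Fin n → Bool, SA F Q ∧ arcs Q = a

/-- from any finite type -/
theorem U_of {F : Type} [Field F] {ι : Type} [Fintype ι] [DecidableEq ι] (Q : ι → ι → Bool)
    (h : SA F Q) {n a : ℕ} (e : ι ≃ Fin n) (ha : arcs Q = a) : U F n a := by
  have hn : Fintype.card ι = n := by rw [Fintype.card_congr e, Fintype.card_fin]
  refine ⟨fun i j => Q (e.symm i) (e.symm j), ?_, ?_⟩
  · intro p hp hd
    obtain ⟨A, hA, hc⟩ := h p hp (by rw [hd, Fintype.card_fin, hn])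
    exact ⟨A.reindex e e, fun i j => hA _ _, by rw [charpoly_reindex, hc]⟩
  · rw [← ha]
    unfold arcs
    refine Finset.card_bij (fun xy _ => (e.symm xy.1, e.symm xy.2)) ?_ ?_ ?_
    · intro xy hxy
      simpa using hxy
    · rintro ⟨x, y⟩ _ ⟨x', y'⟩ _ he
      exact Prod.ext (e.symm.injective (congrArg Prod.fst he)) (e.symm.injective (congrArg Prod.snd he))
    · rintro ⟨x, y⟩ hxy
      exact ⟨(e x, e y), by simpa using hxy, by simp⟩

/-- the direct sum -/
def dsum {ι κ : Type} (P : ι → ι → Bool) (Q : κ → κ → Bool) : ι ⊕ κ → ι ⊕ κ → Bool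
  | Sum.inl i, Sum.inl j => P i j
  | Sum.inr i, Sum.inr j => Q i j
  | _, _ => false

theorem arcs_dsum {ι κ : Type} [Fintype ι] [DecidableEq ι] [Fintype κ] [DecidableEq κ]
    (P : ι → ι → Bool) (Q : κ → κ → Bool) : arcs (dsum P Q) = arcs P + arcs Q := by
  unfold arcs
  rw [Finset.card_filter, Finset.card_filter, Finset.card_filter, Fintype.sum_prod_type,
    Fintype.sum_prod_type, Fintype.sum_prod_type]
  simp only [Fintype.sum_sum_type, dsum, Bool.false_eq_true, if_false, Finset.sum_const_zero,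
    add_zero, zero_add]
  rfl

/-- adding a block `P`, if every polynomial has a divisor realized by `P` -/
theorem step {F : Type} [Field F] {b : ℕ} (P : Fin b → Fin b → Bool) {n a : ℕ}
    (hsel : ∀ p : F[X], p.Monic → p.natDegree = b + n → ∃ g h : F[X], h.Monic ∧
      h.natDegree = n ∧ p = g * h ∧ ∃ M : Matrix (Fin b) (Fin b) F, Exact P M ∧ M.charpoly = g)
    (hU : U F n a) : U F (b + n) (arcs P + a) := by
  obtain ⟨Q, hQ, hqa⟩ := hU
  refine U_of (dsum P Q) ?_ finSumFinEquiv (by rw [arcs_dsum, hqa])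
  intro p hp hd
  obtain ⟨g, h, h2, h4, hgh, M, hM, hMc⟩ := hsel p hp (by simpa using hd)
  obtain ⟨N, hN, hNc⟩ := hQ h h2 (by simpa using h4)
  refine ⟨fromBlocks M 0 0 N, ?_, ?_⟩
  · rintro (i | i) (j | j)
    · simpa [dsum] using hM i j
    · simp [dsum]
    · simp [dsum]
    · simpa [dsum] using hN i j
  · rw [charpoly_fromBlocks_zero₁₂, hMc, hNc, hgh]

/-- the full pattern of order two -/
def T2 : Fin 2 → Fin 2 → Bool := fun _ _ => true

/-- a pattern of order three with six nonzero entries -/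
def T3 : Fin 3 → Fin 3 → Bool :=
  ![![true, true, false], ![true, false, true], ![true, false, true]]

theorem arcs_T2 : arcs T2 = 4 := by decide

theorem arcs_T3 : arcs T3 = 6 := by decide

theorem t2 {F : Type} [Field F] [Infinite F] : SA F T2 := by
  classical
  intro f hf hd
  rw [Fintype.card_fin] at hd
  obtain ⟨al, be, hq⟩ : ∃ al be, f = X ^ 2 + C al * X + C be := by
    refine ⟨f.coeff 1, f.coeff 0, ?_⟩
    have h2 : f.coeff 2 = 1 := by rw [← hd]; exact hf.coeff_natDegree
    have := eq_quadratic_of_degree_le_two (p := f) (natDegree_le_iff_degree_le.1 hd.le)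
    rw [h2] at this
    simpa using this
  obtain ⟨t, ht⟩ := Infinite.exists_notMem_finset ({0, -al} ∪ f.roots.toFinset : Finset F)
  simp only [Finset.mem_union, Finset.mem_insert, Finset.mem_singleton, Multiset.mem_toFinset,
    mem_roots hf.ne_zero, not_or] at ht
  obtain ⟨⟨h0, hal⟩, hroot⟩ := ht
  have hne : t ^ 2 + al * t + be ≠ 0 := by
    intro h
    apply hroot
    rw [IsRoot, hq]
    simpa using h
  refine ⟨!![t, 1; -(t ^ 2 + al * t + be), -al - t], ?_, ?_⟩
  · intro i j
    fin_cases i <;> fin_cases j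
    · simpa [T2] using h0
    · simp [T2]
    · simp only [T2, iff_true, of_apply, cons_val', cons_val_zero, cons_val_one, Fin.mk_one,
        Fin.zero_eta, cons_val_fin_one, ne_eq]
      exact neg_ne_zero.2 hne
    · simp only [Fin.mk_one, Fin.isValue, of_apply, cons_val', cons_val_one, cons_val_fin_one,
        ne_eq, T2, iff_true]
      intro h
      exact hal (by linear_combination -h)
  · rw [charpoly_fin_two, hq]
    simp [trace_fin_two, det_fin_two]
    ring

theorem t3 {F : Type} [Field F] [Infinite F] : SA F T3 := by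
  classical
  intro f hf hd
  rw [Fintype.card_fin] at hd
  obtain ⟨u, v, w, hq⟩ : ∃ u v w, f = X ^ 3 + C u * X ^ 2 + C v * X + C w := by
    refine ⟨f.coeff 2, f.coeff 1, f.coeff 0, ?_⟩
    have h3 : f.coeff 3 = 1 := by rw [← hd]; exact hf.coeff_natDegree
    rw [f.as_sum_range' 4 (by omega)]
    simp [Finset.sum_range_succ, h3, ← C_mul_X_pow_eq_monomial]
    ring
  obtain ⟨t, ht⟩ := Infinite.exists_notMem_finset
    ({0, -u} ∪ f.roots.toFinset ∪ (X ^ 2 + C u * X + C v : F[X]).roots.toFinset : Finset F)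
  have hne2 : (X ^ 2 + C u * X + C v : F[X]) ≠ 0 := by
    have : (X ^ 2 + C u * X + C v : F[X]).Monic := by monicity!
    exact this.ne_zero
  simp only [Finset.mem_union, Finset.mem_insert, Finset.mem_singleton, Multiset.mem_toFinset,
    mem_roots hf.ne_zero, mem_roots hne2, not_or] at ht
  obtain ⟨⟨⟨h0, hu⟩, hroot⟩, hroot2⟩ := ht
  have k1 : t ^ 2 + u * t + v ≠ 0 := by
    intro h; apply hroot2; rw [IsRoot]; simpa using h
  have k2 : t ^ 3 + u * t ^ 2 + v * t + w ≠ 0 := by
    intro h; apply hroot; rw [IsRoot, hq]; simpa using h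
  have k3 : -u - t ≠ 0 := by
    intro h; exact hu (by linear_combination -h)
  refine ⟨!![-u - t, 1, 0; -(t ^ 2 + u * t + v), 0, 1; -(t ^ 3 + u * t ^ 2 + v * t + w), 0, t], ?_, ?_⟩
  · intro i j
    fin_cases i <;> fin_cases j
    · simpa [T3] using k3
    · simp [T3]
    · simp [T3]
    · have : -(t ^ 2 + u * t + v) ≠ 0 := neg_ne_zero.2 k1
      exact iff_of_true this rfl
    · simp [T3]
    · simp [T3]
    · have : -(t ^ 3 + u * t ^ 2 + v * t + w) ≠ 0 := neg_ne_zero.2 k2
      exact iff_of_true this rfl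
    · simp [T3]
    · simpa [T3] using h0
  · rw [Matrix.charpoly, det_fin_three, hq]
    simp
    ring

/-- adding a full block of order two -/
theorem step2 {F : Type} [Field F] [Infinite F]
    (h2 : ∀ p : F[X], p.Monic → 2 ≤ p.natDegree → ∃ g h : F[X], g.Monic ∧ g.natDegree = 2 ∧
      h.Monic ∧ p = g * h) {n a : ℕ} (hU : U F n a) : U F (n + 2) (a + 4) := by
  have h := step (F := F) T2 (n := n) (a := a) (by
    intro p hp hd
    obtain ⟨g, h, hg, hg2, hh, hgh⟩ := h2 p hp (by omega)
    have hdeg : g.natDegree + h.natDegree = p.natDegree := by rw [hgh, hg.natDegree_mul hh]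
    exact ⟨g, h, hh, by omega, hgh, t2 g hg (by simpa using hg2)⟩) hU
  rw [arcs_T2, add_comm 2 n, add_comm 4 a] at h
  exact h

/-- patterns with `2 r` entries for all `r ≥ 2` -/
theorem rest {F : Type} [Field F] [Infinite F]
    (h2 : ∀ p : F[X], p.Monic → 2 ≤ p.natDegree → ∃ g h : F[X], g.Monic ∧ g.natDegree = 2 ∧
      h.Monic ∧ p = g * h) (r : ℕ) : U F (r + 2) (2 * (r + 2)) := by
  induction r using Nat.strong_induction_on with
  | _ r ih =>
    match r, ih with
    | 0, _ => exact ⟨T2, t2, arcs_T2⟩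
    | 1, _ => exact ⟨T3, t3, arcs_T3⟩
    | r + 2, ih =>
      have := step2 h2 (ih r (by omega))
      rw [show 2 * (r + 2 + 2) = 2 * (r + 2) + 4 by ring]
      exact this

/-- `m` blocks `P` of order `b` -/
theorem many {F : Type} [Field F] [Infinite F]
    (h2 : ∀ p : F[X], p.Monic → 2 ≤ p.natDegree → ∃ g h : F[X], g.Monic ∧ g.natDegree = 2 ∧
      h.Monic ∧ p = g * h) {b : ℕ} (P : Fin b → Fin b → Bool) (N : ℕ)
    (hsel : ∀ p : F[X], p.Monic → b + N ≤ p.natDegree → ∃ g h : F[X], h.Monic ∧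
      h.natDegree + b = p.natDegree ∧ p = g * h ∧
      ∃ M : Matrix (Fin b) (Fin b) F, Exact P M ∧ M.charpoly = g)
    {r : ℕ} (hr : 2 ≤ r) (hN : N ≤ r) (m : ℕ) : U F (b * m + r) (arcs P * m + 2 * r) := by
  induction m with
  | zero =>
    have := rest h2 (r - 2)
    rw [show r - 2 + 2 = r by omega] at this
    simpa using this
  | succ m ih =>
    have hsel' : ∀ p : F[X], p.Monic → p.natDegree = b + (b * m + r) → ∃ g h : F[X], h.Monic ∧
        h.natDegree = b * m + r ∧ p = g * h ∧
        ∃ M : Matrix (Fin b) (Fin b) F, Exact P M ∧ M.charpoly = g := by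
      intro p hp hd
      have h1 : b + N ≤ p.natDegree := by
        rw [hd]
        exact Nat.add_le_add_left (le_trans hN (Nat.le_add_left _ _)) b
      obtain ⟨g, h, h3, h4, h5, h6⟩ := hsel p hp h1
      exact ⟨g, h, h3, by omega, h5, h6⟩
    have h := step P hsel' ih
    rw [show b * (m + 1) + r = b + (b * m + r) by ring,
      show arcs P * (m + 1) + 2 * r = arcs P + (arcs P * m + 2 * r) by ring]
    exact h

end Pool.Agent.H89.SP.UP
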