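import Pool.Agent.H89.SP.UP
import Pool.Agent.H89.SP.Fin
import Pool.Agent.H89.SP.LibReal

/-!
# The upper bounds
-/

set_option autoImplicit false

namespace Pool.Agent.H89.SP.UPF

open Polynomial Matrix Pool.Agent.H89.SP.LB Pool.Agent.H89.SP.UP

section closed

variable {F : Type} [Field F] [IsAlgClosed F]

theorem splitP {p : F[X]} (hp : p.Monic) : p = (p.roots.map (fun a => X - C a)).prod :=
  (IsAlgClosed.splits p).eq_prod_roots_of_monic hp

theorem cardR {p : F[X]} : Multiset.card p.roots = p.natDegree :=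
  (splits_iff_card_roots.1 (IsAlgClosed.splits p))

theorem prodMonic (s : Multiset F) : (s.map (fun a => X - C a)).prod.Monic :=
  monic_multiset_prod_of_monic _ _ (fun a _ => monic_X_sub_C a)

omit [IsAlgClosed F] in
theorem prodDeg (s : Multiset F) : (s.map (fun a => X - C a)).prod.natDegree = Multiset.card s := by
  rw [natDegree_multiset_prod_X_sub_C_eq_card]

/-- a submultiset of the roots gives a divisor -/
theorem sub {p : F[X]} (hp : p.Monic) {t : Multiset F} (ht : t ≤ p.roots) :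
    ∃ h : F[X], h.Monic ∧ h.natDegree + Multiset.card t = p.natDegree ∧
      p = (t.map (fun a => X - C a)).prod * h := by
  obtain ⟨u, hu⟩ := Multiset.le_iff_exists_add.1 ht
  refine ⟨(u.map (fun a => X - C a)).prod, prodMonic u, ?_, ?_⟩
  · rw [prodDeg, ← cardR, hu, Multiset.card_add, add_comm]
  · conv_lhs => rw [splitP hp, hu, Multiset.map_add, Multiset.prod_add]

theorem h2 (p : F[X]) (hp : p.Monic) (hd : 2 ≤ p.natDegree) : ∃ g h : F[X], g.Monic ∧
    g.natDegree = 2 ∧ h.Monic ∧ p = g * h := by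
  rw [← cardR] at hd
  obtain ⟨t, ht, hc⟩ : ∃ t, t ≤ p.roots ∧ Multiset.card t = 2 := by
    obtain ⟨t, ht⟩ := Multiset.card_pos_iff_exists_mem.1
      (show 0 < Multiset.card (Multiset.powersetCard 2 p.roots) by
        rw [Multiset.card_powersetCard]; exact Nat.choose_pos hd)
    exact ⟨t, (Multiset.mem_powersetCard.1 ht)⟩
  obtain ⟨h, h1, -, h3⟩ := sub hp ht
  exact ⟨_, h, prodMonic t, by rw [prodDeg, hc], h1, h3⟩

theorem selOf {b : ℕ} (P : Matrix (Fin b) (Fin b) Bool) (N : ℕ)
    (hs : ∀ s : Multiset F, N ≤ Multiset.card s → ∃ t, t ≤ s ∧ Real P t) (p : F[X]) (hp : p.Monic)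
    (hd : N ≤ p.natDegree) : ∃ g h : F[X], h.Monic ∧
      h.natDegree + b = p.natDegree ∧ p = g * h ∧
      ∃ M : Matrix (Fin b) (Fin b) F, Exact P M ∧ M.charpoly = g := by
  rw [← cardR] at hd
  obtain ⟨t, ht, hc, M, hM, hMc⟩ := hs p.roots hd
  obtain ⟨h, h1, h2, h3⟩ := sub hp ht
  exact ⟨_, h, h1, by rw [hc] at h2; exact h2, h3, M, hM, hMc⟩

theorem up4 (h5 : (5 : F) ≠ 0) (n : ℕ) (hn : 30 ≤ n) : ∃ a, U F n a ∧ a + (n - 30) / 4 = 2 * n := by
  have : Infinite F := IsAlgClosed.instInfinite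
  have h := many (F := F) h2 P4 30 (fun p hp hd => selOf P4 34 (choose4 h5) p hp hd)
    (r := n - 4 * ((n - 30) / 4)) (by omega) (by omega) ((n - 30) / 4)
  have ha : arcs P4 = 7 := card_P4
  rw [ha, show 4 * ((n - 30) / 4) + (n - 4 * ((n - 30) / 4)) = n by omega] at h
  exact ⟨_, h, by omega⟩

theorem up6 (h5 : (5 : F) = 0) (n : ℕ) (hn : 80 ≤ n) : ∃ a, U F n a ∧ a + (n - 80) / 6 = 2 * n := by
  have : Infinite F := IsAlgClosed.instInfinite
  have h := many (F := F) h2 P6 80 (fun p hp hd => selOf P6 86 (choose6 h5) p hp hd)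
    (r := n - 6 * ((n - 80) / 6)) (by omega) (by omega) ((n - 80) / 6)
  have ha : arcs P6 = 11 := card_P6
  rw [ha, show 6 * ((n - 80) / 6) + (n - 6 * ((n - 80) / 6)) = n by omega] at h
  exact ⟨_, h, by omega⟩

end closed

section real

open Pool.Agent.H89.SP.LibReal

theorem h2R (p : ℝ[X]) (hp : p.Monic) (hd : 2 ≤ p.natDegree) : ∃ g h : ℝ[X], g.Monic ∧
    g.natDegree = 2 ∧ h.Monic ∧ p = g * h := by
  obtain ⟨f1, f2, k1, k2, k12⟩ :=
    IsMonicOfDegree.eq_isMonicOfDegree_two_mul_isMonicOfDegree (f := p) (n := p.natDegree - 2)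
      ⟨by omega, hp⟩
  exact ⟨f1, f2, k1.monic, k1.natDegree_eq, k2.monic, k12⟩

/-- every real polynomial of degree at least 16 has a divisor realized by the block of order six
(the proof of the library file for degree 16) -/
theorem selR (p : ℝ[X]) (hp : p.Monic) (hd : 16 ≤ p.natDegree) : ∃ g h : ℝ[X], h.Monic ∧
    h.natDegree + 6 = p.natDegree ∧ p = g * h ∧
      ∃ M : Matrix (Fin 6) (Fin 6) ℝ, Exact Z6 M ∧ M.charpoly = g := by
  have key : ∀ g h : ℝ[X], IsMonicOfDegree g 6 → p = g * h →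
      (∃ M : Matrix (Fin 6) (Fin 6) ℝ, (∀ i j, (M i j ≠ 0 ↔ Z6 i j = true)) ∧ M.charpoly = g) →
      ∃ g h : ℝ[X], h.Monic ∧ h.natDegree + 6 = p.natDegree ∧ p = g * h ∧
        ∃ M : Matrix (Fin 6) (Fin 6) ℝ, Exact Z6 M ∧ M.charpoly = g := by
    intro g h hg hgh hM
    have hh : h.Monic := hg.monic.of_mul_monic_left (hgh ▸ hp)
    refine ⟨g, h, hh, ?_, hgh, hM⟩
    rw [hgh, hg.monic.natDegree_mul hh, hg.natDegree_eq, add_comm]
  have hquad : ∀ r : ℝ × ℝ, IsMonicOfDegree (quad r) 2 := fun r =>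
    ⟨quad_natDegree r, quad_monic r⟩
  obtain ⟨A, B, U, V, m, hA, hB, hU, hV, hU1, hV1, hpe⟩ := decomposition p.natDegree p hp rfl
  have hcount : 2 * A.length + 2 * B.length + U.length + V.length + m = p.natDegree := by
    conv_rhs => rw [hpe, ((((quads_monic A).mul (quads_monic B)).mul (lins_monic U)).mul
      (lins_monic V)).natDegree_mul (monic_X_pow m),
      (((quads_monic A).mul (quads_monic B)).mul (lins_monic U)).natDegree_mul (lins_monic V),
      ((quads_monic A).mul (quads_monic B)).natDegree_mul (lins_monic U),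
      (quads_monic A).natDegree_mul (quads_monic B), quads_natDegree, quads_natDegree,
      lins_natDegree, lins_natDegree, natDegree_X_pow]
  have hcases : 3 ≤ A.length ∨ 3 ≤ B.length ∨ 6 ≤ m := by omega
  rcases hcases with h | h | h
  · match A, hA, h, hpe with
    | r :: s :: q :: A', hA, _, hpe =>
      refine key (quad r * quad s * quad q) ((A'.map quad).prod * (B.map quad).prod *
        (U.map lin).prod * (V.map lin).prod * X ^ m) (((hquad r).mul (hquad s)).mul (hquad q))
        ?_ (block_left r s q (hA r (by simp)) (hA s (by simp)) (hA q (by simp)))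
      rw [hpe]
      simp only [List.map_cons, List.prod_cons]
      ring
  · match B, hB, h, hpe with
    | r :: s :: q :: B', hB, _, hpe =>
      refine key (quad r * quad s * quad q) ((A.map quad).prod * (B'.map quad).prod *
        (U.map lin).prod * (V.map lin).prod * X ^ m) (((hquad r).mul (hquad s)).mul (hquad q))
        ?_ (block_right r s q (hB r (by simp)) (hB s (by simp)) (hB q (by simp)))
      rw [hpe]
      simp only [List.map_cons, List.prod_cons]
      ring
  · obtain ⟨m', rfl⟩ := Nat.exists_eq_add_of_le h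
    refine key (X ^ 6) ((A.map quad).prod * (B.map quad).prod *
        (U.map lin).prod * (V.map lin).prod * X ^ m') ⟨by simp, monic_X_pow 6⟩ ?_ block_zero
    rw [hpe, pow_add]
    ring

theorem upR (n : ℕ) (hn : 10 ≤ n) : ∃ a, U ℝ n a ∧ a + (n - 10) / 6 = 2 * n := by
  have h := many (F := ℝ) h2R Z6 10 (fun p hp hd => selR p hp hd)
    (r := n - 6 * ((n - 10) / 6)) (by omega) (by omega) ((n - 10) / 6)
  have ha : arcs Z6 = 11 := by decide +kernel
  rw [ha, show 6 * ((n - 10) / 6) + (n - 6 * ((n - 10) / 6)) = n by omega] at h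
  exact ⟨_, h, by omega⟩

end real

end Pool.Agent.H89.SP.UPF
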